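import Pool.Agent.R253.BE.Hardy

/-!
# Uniform versions of the two halves of the duality argument
-/

set_option autoImplicit false

namespace Pool.Agent.J4H85.BK

open Complex Metric Set Filter Topology MeasureTheory ComplexConjugate
open Pool.Agent.R253.BE

/-- duality estimate with a constant which depends on the exponents only -/
theorem ub_unif {c : ℝ} (hc : 0 < c) {p q s t : ℝ} (hpq : p.HolderConjugate q) (hs : 1 < s)
    (ht : 1 < t) (hst : (s - 1) * (t - 1) = 1) :
    ∃ C : ℝ, 0 ≤ C ∧ ∀ (k F : ℂ → ℂ) (MF : ℝ), InA (am c) q k → IsExt (am c) p k F →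
      (∀ r : ℝ, 0 < r → r < 1 →
        ∫ θ in (0:ℝ)..(2 * Real.pi), ‖F (circleMap 0 r θ)‖ ^ ((p - 1) * s) ≤ MF) →
      ∀ ρ : ℝ, 1 < ρ → ∀ G : ℂ → ℂ, DifferentiableOn ℂ G (ball 0 ρ) →
      ∀ r : ℝ, 0 < r → r < 1 →
      ‖∫ θ in (0:ℝ)..(2 * Real.pi), G (circleMap 0 1 θ) * conj (k (circleMap 0 r θ))‖ ≤
        |(phi (am c) k F).re| * C *
          ((∫ θ in (0:ℝ)..(2 * Real.pi), ‖G (circleMap 0 1 θ)‖ ^ t) + MF) := by
  obtain ⟨C, hC0, hC⟩ := disc_P1 hpq.lt hs ht hst
  refine ⟨2 * C, by positivity, ?_⟩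
  intro k F MF hk hF hMF ρ hρ G hG r h0 h1
  set m : ℝ := (phi (am c) k F).re with hm
  have hGr := dil_diff hρ hG h0 h1
  have hGr1 : DifferentiableOn ℂ (dil G r) (ball 0 1) := hGr.mono (ball_subset_ball hρ.le)
  obtain ⟨M, hM⟩ := bdd_test hρ hGr
  have hpair := pair_full hρ hG hk.1 (kernel_int hc hpq.symm.lt.le hk) h0 h1
  have hg : DifferentiableOn ℂ (fun z => dil G r z + z * deriv (dil G r) z) (ball 0 1) :=
    hGr1.add (differentiableOn_id.mul (hGr1.deriv isOpen_ball))
  have hEL := EL' hc hpq hk hF hg hM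
  have hint : IntegrableOn (Ph0 (dil G r) F p) (ball 0 1) :=
    (integrable_am hc).1 (int_psi (good_am hc) hpq.lt hF.1 hg.continuousOn hM)
  have hl := (lim_ball hint).norm
  have hbd : ∀ n, ‖∫ z in ball (0:ℂ) (Rn n), Ph0 (dil G r) F p z‖ ≤
      C * ((∫ θ in (0:ℝ)..(2 * Real.pi), ‖G (circleMap 0 1 θ)‖ ^ t) + MF) := by
    intro n
    refine (hC (dil G r) F hGr1 hF.1.1 (Rn n) (Rn_pos n) (Rn_lt n)).trans ?_
    apply mul_le_mul_of_nonneg_left _ hC0
    have hGc : Continuous fun θ : ℝ => ‖dil G r (circleMap 0 (Rn n) θ)‖ ^ t :=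
      (cont_circ hGr1.continuousOn (Rn_pos n).le (Rn_lt n)).norm.rpow_const
        fun θ => Or.inr (by linarith)
    have hFc : Continuous fun θ : ℝ => ‖F (circleMap 0 (Rn n) θ)‖ ^ ((p - 1) * s) :=
      (cont_circ hF.1.1.continuousOn (Rn_pos n).le (Rn_lt n)).norm.rpow_const
        fun θ => Or.inr (mul_nonneg (by linarith [hpq.lt]) (by linarith))
    rw [intervalIntegral.integral_add (hGc.intervalIntegrable _ _) (hFc.intervalIntegrable _ _)]
    apply add_le_add
    · simp only [dil_circle]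
      apply mean_le hρ hG (by linarith) (mul_pos h0 (Rn_pos n))
      nlinarith [Rn_lt n, Rn_pos n]
    · exact hMF _ (Rn_pos n) (Rn_lt n)
  have hfin := le_of_tendsto' hl hbd
  have e1 : ∫ θ in (0:ℝ)..(2 * Real.pi), G (circleMap 0 1 θ) * conj (k (circleMap 0 r θ)) =
      2 * (m * ∫ z in ball (0:ℂ) 1, Ph0 (dil G r) F p z) := by
    have : (m:ℂ) * ∫ z in ball (0:ℂ) 1, Ph0 (dil G r) F p z =
        ∫ z in ball (0:ℂ) 1, (dil G r z + z * deriv (dil G r) z) * conj (k z) := hEL.symm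
    rw [this, hpair]
    ring
  rw [e1, norm_mul, norm_mul, Complex.norm_real, Complex.norm_ofNat, Real.norm_eq_abs]
  have := mul_le_mul_of_nonneg_left hfin (show 0 ≤ 2 * |m| by positivity)
  linarith

/-- from the duality estimate to Hardy means, with a constant which depends on the exponents only -/
theorem hardy_unif {s t : ℝ} (hs : 1 < s) (ht : 1 < t) (hst : (s - 1) * (t - 1) = 1) :
    ∃ K : ℝ, 0 < K ∧ ∀ (k : ℂ → ℂ) (C D : ℝ), DifferentiableOn ℂ k (ball 0 1) → 0 < C →
      (∀ ρ : ℝ, 1 < ρ → ∀ G : ℂ → ℂ, DifferentiableOn ℂ G (ball 0 ρ) → ∀ r : ℝ, 0 < r → r < 1 →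
        ‖∫ θ in (0:ℝ)..(2 * Real.pi), G (circleMap 0 1 θ) * conj (k (circleMap 0 r θ))‖ ≤
          C * ((∫ θ in (0:ℝ)..(2 * Real.pi), ‖G (circleMap 0 1 θ)‖ ^ t) + D)) →
      ∀ r : ℝ, 0 < r → r < 1 →
        ∫ θ in (0:ℝ)..(2 * Real.pi), ‖k (circleMap 0 r θ)‖ ^ s ≤ K * C ^ s * D := by
  have hT : Fact (0 < 2 * Real.pi) := ⟨Real.two_pi_pos⟩
  obtain ⟨C2, hC2, hproj⟩ := proj ht
  have ht0 : 0 < t := by linarith
  have ht1 : 0 < t - 1 := by linarith
  refine ⟨2 * (2 * (C2 + 1)) ^ (1 / (t - 1)), by positivity, ?_⟩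
  intro k C D hk hC hΛ r h0 h1
  set lam : ℝ := (1 / (2 * (C * (C2 + 1)))) ^ (1 / (t - 1)) with hlam
  have hbase : 0 < 1 / (2 * (C * (C2 + 1))) := by positivity
  have hlam0 : 0 < lam := Real.rpow_pos_of_pos hbase _
  have hlamt : lam ^ (t - 1) = 1 / (2 * (C * (C2 + 1))) := by
    rw [hlam, ← Real.rpow_mul hbase.le, one_div_mul_cancel (by linarith), Real.rpow_one]
  have hkc : Continuous fun θ : ℝ => k (circleMap 0 r θ) := cont_circ hk.continuousOn h0.le h1
  have hkc' : Continuous fun θ : ℝ => conj (k (circleMap 0 r θ)) := Complex.continuous_conj.comp hkc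
  set J : ℝ := ∫ θ in (0:ℝ)..(2 * Real.pi), ‖k (circleMap 0 r θ)‖ ^ s with hJ
  -- the inequality for trigonometric polynomials
  have htrig : ∀ (M : ℕ) (a : ℕ → ℂ),
      lam * ‖∫ θ in (0:ℝ)..(2 * Real.pi), tp M a θ * conj (k (circleMap 0 r θ))‖ ≤
        C * (lam ^ t * (C2 * ∫ θ in (0:ℝ)..(2 * Real.pi), ‖tp M a θ‖ ^ t) + D) := by
    intro M a
    have h2 := hΛ 2 (by norm_num) (fun z => (lam : ℂ) * gp M a z)
      (((gp_diff M a).differentiableOn).const_mul _) r h0 h1
    have e1 : ∫ θ in (0:ℝ)..(2 * Real.pi), (lam : ℂ) * gp M a (circleMap 0 1 θ) *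
        conj (k (circleMap 0 r θ)) = (lam : ℂ) * ∫ θ in (0:ℝ)..(2 * Real.pi),
          tp M a θ * conj (k (circleMap 0 r θ)) := by
      rw [pair_tp hk h0 h1, ← intervalIntegral.integral_const_mul]
      congr 1
      ext θ
      ring
    have e2 : ∫ θ in (0:ℝ)..(2 * Real.pi), ‖(lam : ℂ) * gp M a (circleMap 0 1 θ)‖ ^ t =
        lam ^ t * ∫ θ in (0:ℝ)..(2 * Real.pi), ‖gp M a (circleMap 0 1 θ)‖ ^ t := by
      rw [← intervalIntegral.integral_const_mul]
      congr 1
      ext θ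
      rw [norm_mul, Complex.norm_real, Real.norm_eq_abs, abs_of_pos hlam0,
        Real.mul_rpow hlam0.le (norm_nonneg _)]
    rw [e1, e2, norm_mul, Complex.norm_real, Real.norm_eq_abs, abs_of_pos hlam0] at h2
    refine h2.trans ?_
    apply mul_le_mul_of_nonneg_left _ hC.le
    have h3 := mul_le_mul_of_nonneg_left (hproj M a) (show 0 ≤ lam ^ t by positivity)
    linarith
  -- extension to continuous functions
  have hcont1 : Continuous fun T : C(AddCircle (2 * Real.pi), ℂ) =>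
      ∫ θ in (0:ℝ)..(2 * Real.pi), T (θ : AddCircle (2 * Real.pi)) * conj (k (circleMap 0 r θ)) := by
    apply intervalIntegral.continuous_parametric_intervalIntegral_of_continuous'
    apply Continuous.mul
    · exact continuous_eval.comp (continuous_fst.prodMk
        ((AddCircle.continuous_mk' (2 * Real.pi)).comp continuous_snd))
    · exact hkc'.comp continuous_snd
  have hcont2 : Continuous fun T : C(AddCircle (2 * Real.pi), ℂ) =>
      ∫ θ in (0:ℝ)..(2 * Real.pi), ‖T (θ : AddCircle (2 * Real.pi))‖ ^ t := by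
    apply intervalIntegral.continuous_parametric_intervalIntegral_of_continuous'
    apply Continuous.rpow_const _ fun _ => Or.inr ht0.le
    apply Continuous.norm
    exact continuous_eval.comp (continuous_fst.prodMk
        ((AddCircle.continuous_mk' (2 * Real.pi)).comp continuous_snd))
  have hall : ∀ T : C(AddCircle (2 * Real.pi), ℂ),
      lam * ‖∫ θ in (0:ℝ)..(2 * Real.pi), T (θ : AddCircle (2 * Real.pi)) *
        conj (k (circleMap 0 r θ))‖ ≤
        C * (lam ^ t * (C2 * ∫ θ in (0:ℝ)..(2 * Real.pi),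
          ‖T (θ : AddCircle (2 * Real.pi))‖ ^ t) + D) := by
    have hclosed : IsClosed {T : C(AddCircle (2 * Real.pi), ℂ) |
        lam * ‖∫ θ in (0:ℝ)..(2 * Real.pi), T (θ : AddCircle (2 * Real.pi)) *
        conj (k (circleMap 0 r θ))‖ ≤
        C * (lam ^ t * (C2 * ∫ θ in (0:ℝ)..(2 * Real.pi),
          ‖T (θ : AddCircle (2 * Real.pi))‖ ^ t) + D)} :=
      isClosed_le (continuous_const.mul hcont1.norm)
        (continuous_const.mul ((continuous_const.mul (continuous_const.mul hcont2)).add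
          continuous_const))
    intro T
    have hmem : T ∈ (Submodule.span ℂ (range (@fourier (2 * Real.pi)))).topologicalClosure := by
      rw [span_fourier_closure_eq_top]; trivial
    have hsub : (Submodule.span ℂ (range (@fourier (2 * Real.pi))) :
        Set (C(AddCircle (2 * Real.pi), ℂ))) ⊆ {T : C(AddCircle (2 * Real.pi), ℂ) |
        lam * ‖∫ θ in (0:ℝ)..(2 * Real.pi), T (θ : AddCircle (2 * Real.pi)) *
        conj (k (circleMap 0 r θ))‖ ≤
        C * (lam ^ t * (C2 * ∫ θ in (0:ℝ)..(2 * Real.pi),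
          ‖T (θ : AddCircle (2 * Real.pi))‖ ^ t) + D)} := by
      intro S hS
      obtain ⟨M, a, hrep⟩ := span_rep hS
      simp only [mem_setOf_eq, hrep]
      exact htrig M a
    exact (closure_minimal hsub hclosed) hmem
  -- the extremal test function
  have hH : Continuous fun x : AddCircle (2 * Real.pi) =>
      ((‖k (r * (AddCircle.toCircle x : ℂ))‖ ^ (s - 2) : ℝ) : ℂ) *
        k (r * (AddCircle.toCircle x : ℂ)) := by
    have h2 : Continuous fun x : AddCircle (2 * Real.pi) => k (r * (AddCircle.toCircle x : ℂ)) := by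
      apply hk.continuousOn.comp_continuous
      · exact continuous_const.mul (continuous_subtype_val.comp AddCircle.continuous_toCircle)
      · intro x
        rw [mem_ball_zero_iff, norm_mul, Complex.norm_real, Real.norm_eq_abs, abs_of_pos h0,
          Circle.norm_coe, mul_one]
        exact h1
    exact (cont_pow_sgn hs).comp h2
  have hfin := hall ⟨_, hH⟩
  have hcirc : ∀ θ : ℝ, (r:ℂ) * (AddCircle.toCircle (θ : AddCircle (2 * Real.pi)) : ℂ) =
      circleMap 0 r θ := by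
    intro θ
    rw [AddCircle.toCircle_apply_mk, div_self Real.two_pi_pos.ne', one_mul, Circle.coe_exp]
    simp [circleMap]
  have e3 : ∀ θ : ℝ, (((‖k (circleMap 0 r θ)‖ ^ (s - 2) : ℝ) : ℂ) * k (circleMap 0 r θ)) *
      conj (k (circleMap 0 r θ)) = ((‖k (circleMap 0 r θ)‖ ^ s : ℝ) : ℂ) := by
    intro θ
    rw [mul_assoc, Complex.mul_conj']
    rcases eq_or_ne (k (circleMap 0 r θ)) 0 with hz | hz
    · rw [hz, norm_zero, Real.zero_rpow (by linarith : s ≠ 0)]; simp
    · have hz0 : 0 < ‖k (circleMap 0 r θ)‖ := norm_pos_iff.2 hz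
      rw [show ‖k (circleMap 0 r θ)‖ ^ s = ‖k (circleMap 0 r θ)‖ ^ (s - 2) *
        ‖k (circleMap 0 r θ)‖ ^ 2 by
          rw [← Real.rpow_natCast, ← Real.rpow_add hz0]; congr 1; push_cast; ring]
      push_cast
      ring
  have e4 : ∀ θ : ℝ, ‖((‖k (circleMap 0 r θ)‖ ^ (s - 2) : ℝ) : ℂ) * k (circleMap 0 r θ)‖ ^ t =
      ‖k (circleMap 0 r θ)‖ ^ s := by
    intro θ
    rcases eq_or_ne (k (circleMap 0 r θ)) 0 with hz | hz
    · rw [hz, mul_zero, norm_zero, Real.zero_rpow ht0.ne', Real.zero_rpow (by linarith : s ≠ 0)]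
    · have hz0 : 0 < ‖k (circleMap 0 r θ)‖ := norm_pos_iff.2 hz
      rw [norm_mul, Complex.norm_real, Real.norm_eq_abs, abs_of_nonneg (by positivity),
        ← Real.rpow_add_one hz0.ne', ← Real.rpow_mul hz0.le]
      congr 1
      nlinarith
  simp only [ContinuousMap.coe_mk, hcirc, e3, e4] at hfin
  rw [intervalIntegral.integral_ofReal, Complex.norm_real, Real.norm_eq_abs, ← hJ] at hfin
  have hJ0 : 0 ≤ J := intervalIntegral.integral_nonneg (by positivity) fun θ _ => by positivity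
  rw [abs_of_nonneg hJ0] at hfin
  have e5 : lam ^ t = lam * (1 / (2 * (C * (C2 + 1)))) := by
    rw [← hlamt, mul_comm, ← Real.rpow_add_one hlam0.ne']; congr 1; ring
  have h5 : C * (lam ^ t * (C2 * J)) ≤ lam * J / 2 := by
    rw [e5]
    have h6 : C * C2 * (1 / (2 * (C * (C2 + 1)))) ≤ 1 / 2 := by
      rw [mul_one_div, div_le_div_iff₀ (by positivity) (by norm_num)]
      nlinarith
    have h7 := mul_le_mul_of_nonneg_right h6 (show 0 ≤ lam * J by positivity)
    calc _ = C * C2 * (1 / (2 * (C * (C2 + 1)))) * (lam * J) := by ring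
      _ ≤ _ := h7
      _ = _ := by ring
  rw [mul_add] at hfin
  have h8 : lam * J ≤ 2 * C * D := by linarith
  have h9 : J ≤ 2 * C * D / lam := by
    rw [le_div_iff₀ hlam0]; linarith
  refine h9.trans (le_of_eq ?_)
  -- the constant
  have hs' : s = 1 + 1 / (t - 1) := by
    field_simp
    linarith
  have e6 : lam⁻¹ = (2 * (C2 + 1)) ^ (1 / (t - 1)) * C ^ (1 / (t - 1)) := by
    rw [hlam, ← Real.inv_rpow hbase.le, one_div, inv_inv, ← Real.mul_rpow (by positivity) hC.le]
    congr 1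
    ring
  have e7 : C ^ s = C * C ^ (1 / (t - 1)) := by
    rw [hs', Real.rpow_add hC, Real.rpow_one]
  rw [div_eq_mul_inv, e6, e7]
  ring

end Pool.Agent.J4H85.BK
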